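import Mathlib

/-!
# Properties with few exceptions in all residue classes of large moduli: the neighbourhoods of members of classes
-/

set_option autoImplicit false

namespace Pool.Agent.N860.GL

open Finset

/-- few exceptions in all classes of all moduli up to `N ^ (θ - ρ)` -/
def ClassBound (θ : ℝ) (P : ℕ → Prop) : Prop :=
  ∀ ρ : ℝ, 0 < ρ → ∀ A T : ℕ, ∃ N₀ : ℕ, ∀ N : ℕ, N₀ ≤ N → ∀ q : ℕ, 1 ≤ q → (q : ℝ) ≤ (N : ℝ) ^ (θ - ρ) →
    ∀ a : ℕ, (Nat.gcd a q : ℝ) ≤ Real.log N ^ T →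
      ({n : ℕ | 1 ≤ n ∧ n ≤ N ∧ n % q = a % q ∧ ¬ P n}.ncard : ℝ) ≤ N / (q * Real.log N ^ A)

/-- `n` is close to `k`, and has a small common divisor with `q` -/
def Near (W T q k n : ℕ) : Prop :=
  |(n : ℝ) - k| ≤ Real.log k ^ W ∧ (Nat.gcd n q : ℝ) ≤ Real.log k ^ T

/-- `k` has a neighbour which does not have the property `P` -/
def BadNear (P : ℕ → Prop) (W T q k : ℕ) : Prop := ∃ n : ℕ, Near W T q k n ∧ ¬ P n

lemma log_large (B : ℝ) : ∃ N₀ : ℕ, ∀ N : ℕ, N₀ ≤ N → B ≤ Real.log N := by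
  have h := (Real.tendsto_log_atTop.comp tendsto_natCast_atTop_atTop).eventually_ge_atTop B
  obtain ⟨N₀, h₀⟩ := Filter.eventually_atTop.1 h
  exact ⟨N₀, fun N hN => h₀ N hN⟩

/-- logarithms are smaller than the number -/
lemma log_pow_lt (W : ℕ) : ∃ N₀ : ℕ, ∀ N : ℕ, N₀ ≤ N → Real.log (2 * N) ^ W ≤ (N : ℝ) / 2 := by
  have h1 : (fun x : ℝ => Real.log x ^ W) =o[Filter.atTop] (fun x : ℝ => x) := by
    exact Real.isLittleO_pow_log_id_atTop (n := W)
  have h2 := h1.bound (show (0 : ℝ) < 1 / 4 by norm_num)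
  obtain ⟨x₀, hx₀⟩ := Filter.eventually_atTop.1 h2
  refine ⟨⌈x₀⌉₊ + 1, fun N hN => ?_⟩
  have hN1 : (1 : ℝ) ≤ N := by
    have : 1 ≤ N := by omega
    exact_mod_cast this
  have h3 : x₀ ≤ 2 * N := by
    have h4 : x₀ ≤ ⌈x₀⌉₊ := Nat.le_ceil _
    have h5 : ((⌈x₀⌉₊ + 1 : ℕ) : ℝ) ≤ N := by exact_mod_cast hN
    push_cast at h5
    linarith
  have h4 := hx₀ (2 * N) h3
  rw [Real.norm_of_nonneg (pow_nonneg (Real.log_nonneg (by linarith)) _), Real.norm_of_nonneg (by positivity)] at h4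
  linarith

theorem near_bound {θ : ℝ} {P : ℕ → Prop} (hP : ClassBound θ P) {ρ : ℝ} (hρ : 0 < ρ) (A W T : ℕ) :
    ∃ N₀ : ℕ, ∀ N : ℕ, N₀ ≤ N → ∀ q : ℕ, 1 ≤ q → (q : ℝ) ≤ (N : ℝ) ^ (θ - ρ) → ∀ a : ℕ,
      ({k : ℕ | N ≤ k ∧ k < 2 * N ∧ k % q = a % q ∧ BadNear P W T q k}.ncard : ℝ) ≤ N / (q * Real.log N ^ A) := by
  classical
  obtain ⟨N₁, h₁⟩ := hP ρ hρ (A + W + 1) T
  obtain ⟨N₂, h₂⟩ := log_large 9
  obtain ⟨N₃, h₃⟩ := log_pow_lt W
  refine ⟨N₁ + N₂ + N₃ + 2, fun N hN q hq hqN a => ?_⟩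
  have hN1 : (1 : ℝ) ≤ N := by
    have : 1 ≤ N := by omega
    exact_mod_cast this
  have hN0 : (0 : ℝ) < N := by linarith
  have hq0 : (0 : ℝ) < q := by exact_mod_cast hq
  have hlog9 : 9 ≤ Real.log N := h₂ N (by omega)
  have hlog3 : Real.log N ≤ Real.log ((3 * N : ℕ) : ℝ) := by
    apply Real.log_le_log hN0
    push_cast
    linarith
  have hlog2 : Real.log (2 * N) ≤ Real.log ((3 * N : ℕ) : ℝ) := by
    apply Real.log_le_log (by positivity)
    push_cast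
    linarith
  have hlog2' : Real.log N ≤ Real.log (2 * N) := Real.log_le_log hN0 (by linarith)
  obtain ⟨L, hL⟩ : ∃ L : ℕ, L = ⌊Real.log (2 * N) ^ W⌋₊ := ⟨_, rfl⟩
  have hLle : (L : ℝ) ≤ Real.log (2 * N) ^ W := by
    rw [hL]
    exact Nat.floor_le (pow_nonneg (by linarith) _)
  have hLN : (L : ℝ) ≤ N / 2 := hLle.trans (h₃ N (by omega))
  have hLN' : 2 * L ≤ N := by
    have : (2 * L : ℝ) ≤ N := by linarith
    exact_mod_cast this
  -- the exceptional numbers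
  set E : ℕ → Set ℕ := fun i => {n : ℕ | 1 ≤ n ∧ n ≤ 3 * N ∧ n % q = (a + i + (q - 1) * L) % q ∧ ¬ P n ∧
    (Nat.gcd n q : ℝ) ≤ Real.log ((3 * N : ℕ) : ℝ) ^ T} with hE
  have hEfin : ∀ i, (E i).Finite := fun i => (Set.finite_Icc 1 (3 * N)).subset fun n hn => ⟨hn.1, hn.2.1⟩
  have hEcard : ∀ i, ((E i).ncard : ℝ) ≤ ((3 * N : ℕ) : ℝ) / (q * Real.log ((3 * N : ℕ) : ℝ) ^ (A + W + 1)) := by
    intro i
    by_cases hg : (Nat.gcd (a + i + (q - 1) * L) q : ℝ) ≤ Real.log ((3 * N : ℕ) : ℝ) ^ T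
    · have hq3 : (q : ℝ) ≤ ((3 * N : ℕ) : ℝ) ^ (θ - ρ) := by
        rcases le_or_gt 0 (θ - ρ) with hθ | hθ
        · refine hqN.trans (Real.rpow_le_rpow hN0.le ?_ hθ)
          push_cast
          linarith
        · exfalso
          have h5 : (N : ℝ) ^ (θ - ρ) < 1 := by
            apply Real.rpow_lt_one_of_one_lt_of_neg _ hθ
            have : 1 < N := by omega
            exact_mod_cast this
          have h6 : (1 : ℝ) ≤ q := by exact_mod_cast hq
          linarith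
      refine le_trans ?_ (h₁ (3 * N) (by omega) q hq hq3 _ hg)
      have hfin : {n : ℕ | 1 ≤ n ∧ n ≤ 3 * N ∧ n % q = (a + i + (q - 1) * L) % q ∧ ¬ P n}.Finite :=
        (Set.finite_Icc 1 (3 * N)).subset fun n hn => ⟨hn.1, hn.2.1⟩
      have hsub : E i ⊆ {n : ℕ | 1 ≤ n ∧ n ≤ 3 * N ∧ n % q = (a + i + (q - 1) * L) % q ∧ ¬ P n} :=
        fun n hn => ⟨hn.1, hn.2.1, hn.2.2.1, hn.2.2.2.1⟩
      exact_mod_cast Set.ncard_le_ncard hsub hfin
    · have hemp : E i = ∅ := by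
        rw [Set.eq_empty_iff_forall_notMem]
        rintro n ⟨_, _, h7, _, h8⟩
        apply hg
        have h9 : Nat.gcd n q = Nat.gcd (a + i + (q - 1) * L) q := by
          rw [Nat.gcd_comm, Nat.gcd_comm _ q, Nat.gcd_rec q n, Nat.gcd_rec q, h7]
        rw [← h9]
        exact h8
      rw [hemp, Set.ncard_empty, Nat.cast_zero]
      positivity
  -- covering
  set S : Set ℕ := {k : ℕ | N ≤ k ∧ k < 2 * N ∧ k % q = a % q ∧ BadNear P W T q k} with hS
  have hSfin : S.Finite := (Set.finite_Icc N (2 * N)).subset fun k hk => ⟨hk.1, hk.2.1.le⟩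
  have hcov : S ⊆ ⋃ i ∈ range (2 * L + 1), (fun n => n + L - i) '' E i := by
    rintro k ⟨hk1, hk2, hk3, n, ⟨hn1, hn2⟩, hn3⟩
    have hkr : (N : ℝ) ≤ k := by exact_mod_cast hk1
    have hkr2 : (k : ℝ) ≤ 2 * N := by exact_mod_cast hk2.le
    have hlk : Real.log k ≤ Real.log (2 * N) := Real.log_le_log (by linarith) hkr2
    have hlk0 : 0 ≤ Real.log k := Real.log_nonneg (by linarith)
    have habs : |(n : ℤ) - k| ≤ L := by
      have h5 : |(n : ℝ) - k| ≤ Real.log (2 * N) ^ W := hn1.trans (pow_le_pow_left₀ hlk0 hlk W)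
      have h6 : ((n : ℤ) - k).natAbs ≤ L := by
        rw [hL]
        apply Nat.le_floor
        have h8 : (((n : ℤ) - k).natAbs : ℝ) = |(n : ℝ) - k| := by
          rw [Nat.cast_natAbs]
          push_cast
          rfl
        rw [h8]
        exact h5
      have h7 : |(n : ℤ) - k| = (((n : ℤ) - k).natAbs : ℤ) := (Int.natCast_natAbs _).symm
      rw [h7]
      exact_mod_cast h6
    rw [abs_le] at habs
    obtain ⟨i, hi⟩ : ∃ i : ℕ, n + L = k + i := ⟨n + L - k, by omega⟩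
    have hi2 : i ≤ 2 * L := by omega
    refine Set.mem_biUnion (mem_coe.2 (mem_range.2 (by omega : i < 2 * L + 1))) ⟨n, ⟨by omega, by omega, ?_, hn3, ?_⟩, ?_⟩
    · have h10 : n + q * L = k + i + (q - 1) * L := by
        obtain ⟨q', rfl⟩ : ∃ q', q = q' + 1 := ⟨q - 1, by omega⟩
        simp only [Nat.add_sub_cancel]
        have : (q' + 1) * L = q' * L + L := by ring
        omega
      have h11 : n % q = (n + q * L) % q := by simp
      rw [h11, h10]
      have h12 : (k + i + (q - 1) * L) ≡ (a + i + (q - 1) * L) [MOD q] :=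
        ((show k ≡ a [MOD q] from hk3).add_right i).add_right _
      exact h12
    · refine hn2.trans (pow_le_pow_left₀ hlk0 ?_ T)
      exact hlk.trans hlog2
    · simp only
      omega
  have hcard : (S.ncard : ℝ) ≤ ∑ i ∈ range (2 * L + 1), ((E i).ncard : ℝ) := by
    have hfinU : (⋃ i ∈ range (2 * L + 1), (fun n => n + L - i) '' E i).Finite := by
      apply Set.Finite.biUnion (range (2 * L + 1)).finite_toSet
      intro i _
      exact (hEfin i).image _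
    have h5 : S.ncard ≤ (⋃ i ∈ range (2 * L + 1), (fun n => n + L - i) '' E i).ncard := Set.ncard_le_ncard hcov hfinU
    have h6 : (⋃ i ∈ range (2 * L + 1), (fun n => n + L - i) '' E i).ncard ≤
        ∑ i ∈ range (2 * L + 1), ((fun n => n + L - i) '' E i).ncard :=
      Finset.set_ncard_biUnion_le _ _
    have h7 : ∑ i ∈ range (2 * L + 1), ((fun n => n + L - i) '' E i).ncard ≤ ∑ i ∈ range (2 * L + 1), (E i).ncard :=
      Finset.sum_le_sum fun i _ => Set.ncard_image_le (hEfin i)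
    exact_mod_cast (h5.trans (h6.trans h7))
  refine hcard.trans ((Finset.sum_le_sum fun i _ => hEcard i).trans ?_)
  rw [sum_const, card_range, nsmul_eq_mul]
  set l : ℝ := Real.log ((3 * N : ℕ) : ℝ) with hl
  have hl9 : 9 ≤ l := by linarith
  have hl0 : 0 < l := by linarith
  have hLl : (L : ℝ) ≤ l ^ W := hLle.trans (pow_le_pow_left₀ (by linarith) hlog2 W)
  have h1W : (1 : ℝ) ≤ l ^ W := one_le_pow₀ (by linarith)
  have h12 : ((2 * L + 1 : ℕ) : ℝ) * 3 ≤ l ^ (W + 1) := by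
    push_cast
    rw [pow_succ]
    nlinarith
  calc ((2 * L + 1 : ℕ) : ℝ) * (((3 * N : ℕ) : ℝ) / (q * l ^ (A + W + 1)))
      = ((2 * L + 1 : ℕ) : ℝ) * 3 * (N / (q * l ^ (A + W + 1))) := by push_cast; ring
    _ ≤ l ^ (W + 1) * (N / (q * l ^ (A + W + 1))) := by gcongr
    _ = N / (q * l ^ A) := by
        have : l ^ (A + W + 1) = l ^ A * l ^ (W + 1) := by rw [← pow_add]; ring_nf
        rw [this]
        field_simp
    _ ≤ N / (q * Real.log N ^ A) := by
        have h13 : 0 < Real.log N := by linarith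
        gcongr

end Pool.Agent.N860.GL
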