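import Pool.Agent.N860.GL.Fin
import Pool.Agent.R460.GH.Asm
import Pool.Agent.R460.GS.Asm

/-!
# The input: the theorems on the sums of two primes in residue classes of large moduli
-/

set_option autoImplicit false

namespace Pool.Agent.N860.GL

open Finset
open Pool.Agent.Y883.T4 (badc)
open Pool.Agent.W93.PG (WinP cnt)
open Pool.Agent.R460.GS (WinL)
open Pool.Agent.H560R3.GB (sing)

lemma mem_badc {P : ℕ → Prop} {N q a n : ℕ} :
    n ∈ badc P N q a ↔ (1 ≤ n ∧ n ≤ N) ∧ 2 ∣ n ∧ n % q = a % q ∧ ¬ P n := by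
  classical
  rw [badc, mem_filter, mem_Icc]

/-- halving -/
theorem classBound_half {θ : ℝ} {Q : ℕ → Prop}
    (h : ∀ ρ : ℝ, 0 < ρ → ∀ A T : ℕ, ∃ N₀ : ℕ, ∀ N : ℕ, N₀ ≤ N → ∀ q : ℕ, 1 ≤ q → (q : ℝ) ≤ (N : ℝ) ^ (θ - ρ) →
      ∀ a : ℕ, (Nat.gcd a q : ℝ) ≤ Real.log N ^ T →
        ((badc Q N q a).card : ℝ) ≤ (N : ℝ) / (q * Real.log N ^ A)) :
    ClassBound θ (fun n => Q (2 * n)) := by
  classical
  intro ρ hρ A T
  obtain ⟨N₁, h₁⟩ := h (ρ / 2) (half_pos hρ) A (T + 1)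
  obtain ⟨N₂, h₂⟩ := log_large 2
  have ht := (tendsto_rpow_atTop (half_pos hρ)).comp tendsto_natCast_atTop_atTop
  obtain ⟨N₃, h₃⟩ := Filter.eventually_atTop.1 (ht.eventually_ge_atTop 2)
  refine ⟨N₁ + N₂ + N₃ + 2, fun N hN q hq hqN a ha => ?_⟩
  have hN1 : (1 : ℝ) < N := by
    have : 1 < N := by omega
    exact_mod_cast this
  have hN0 : (0 : ℝ) < N := by linarith
  have hq0 : (0 : ℝ) < q := by exact_mod_cast hq
  have hlog : 2 ≤ Real.log N := h₂ N (by omega)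
  have hlog2 : Real.log N ≤ Real.log ((2 * N : ℕ) : ℝ) := by
    apply Real.log_le_log hN0
    push_cast
    linarith
  have hpow : (2 : ℝ) ≤ (N : ℝ) ^ (ρ / 2) := h₃ N (by omega)
  have hθρ : 0 ≤ θ - ρ := by
    by_contra hneg
    push Not at hneg
    have h5 : (N : ℝ) ^ (θ - ρ) < 1 := Real.rpow_lt_one_of_one_lt_of_neg hN1 hneg
    have h6 : (1 : ℝ) ≤ q := by exact_mod_cast hq
    linarith
  have hq2 : ((2 * q : ℕ) : ℝ) ≤ ((2 * N : ℕ) : ℝ) ^ (θ - ρ / 2) := by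
    calc ((2 * q : ℕ) : ℝ) = 2 * q := by push_cast; ring
      _ ≤ (N : ℝ) ^ (ρ / 2) * (N : ℝ) ^ (θ - ρ) := by gcongr
      _ = (N : ℝ) ^ (θ - ρ / 2) := by
          rw [← Real.rpow_add hN0]
          ring_nf
      _ ≤ _ := by
          apply Real.rpow_le_rpow hN0.le _ (by linarith)
          push_cast
          linarith
  have hg : (Nat.gcd (2 * a) (2 * q) : ℝ) ≤ Real.log ((2 * N : ℕ) : ℝ) ^ (T + 1) := by
    rw [Nat.gcd_mul_left]
    calc ((2 * Nat.gcd a q : ℕ) : ℝ) = 2 * (Nat.gcd a q : ℝ) := by push_cast; ring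
      _ ≤ Real.log N * Real.log N ^ T := by gcongr
      _ = Real.log N ^ (T + 1) := by rw [pow_succ]; ring
      _ ≤ _ := by gcongr
  have h4 := h₁ (2 * N) (by omega) (2 * q) (by omega) hq2 (2 * a) hg
  have h5 : {n : ℕ | 1 ≤ n ∧ n ≤ N ∧ n % q = a % q ∧ ¬ Q (2 * n)}.ncard ≤ (badc Q (2 * N) (2 * q) (2 * a)).card := by
    rw [← Set.ncard_coe_finset]
    apply Set.ncard_le_ncard_of_injOn (fun n => 2 * n) _ _ (Finset.finite_toSet _)
    · rintro n ⟨h6, h7, h8, h9⟩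
      rw [mem_coe, mem_badc]
      refine ⟨⟨by omega, by omega⟩, Dvd.intro n rfl, ?_, h9⟩
      rw [Nat.mul_mod_mul_left, Nat.mul_mod_mul_left, h8]
    · intro n _ n' _ hnn
      simp only at hnn
      omega
  have h6 : (({n : ℕ | 1 ≤ n ∧ n ≤ N ∧ n % q = a % q ∧ ¬ Q (2 * n)}.ncard : ℕ) : ℝ) ≤
      ((badc Q (2 * N) (2 * q) (2 * a)).card : ℝ) := by exact_mod_cast h5
  refine h6.trans (h4.trans ?_)
  push_cast
  have hl0 : 0 < Real.log N := by linarith
  have hl2 : Real.log N ≤ Real.log (2 * N) := by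
    have := hlog2
    push_cast at this
    exact this
  rw [mul_assoc, mul_div_mul_left _ _ (by norm_num : (2 : ℝ) ≠ 0)]
  gcongr

theorem half_formula (ε : ℝ) (hε : 0 < ε) (W : ℕ) : ClassBound (2 / 3) (fun n => WinP ε W (2 * n)) :=
  classBound_half fun ρ hρ A T => Pool.Agent.R460.GH.gh_all ε hε ρ hρ A W T

theorem half_lower (W : ℕ) : ClassBound (7 / 10) (fun n => 3 ≤ 2 * n → WinL W (2 * n)) := by
  classical
  refine classBound_half (Q := fun m => 3 ≤ m → WinL W m) fun ρ hρ A T => ?_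
  obtain ⟨N₀, hN₀⟩ := Pool.Agent.R460.GS.gs_all ρ hρ (max A W) T
  obtain ⟨N₁, hN₁⟩ := log_large 1
  refine ⟨N₀ + N₁, fun N hN q hq hqN a ha => ?_⟩
  have hlog : 1 ≤ Real.log N := hN₁ N (by omega)
  have hN0 : (0 : ℝ) ≤ N := Nat.cast_nonneg _
  have hq0 : (0 : ℝ) < q := by exact_mod_cast hq
  refine le_trans ?_ ((hN₀ N (by omega) q hq hqN a ha).trans ?_)
  · have : (badc (fun m => 3 ≤ m → WinL W m) N q a).card ≤ (badc (WinL (max A W)) N q a).card := by
      apply card_le_card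
      intro n hn
      rw [mem_badc] at hn ⊢
      refine ⟨hn.1, hn.2.1, hn.2.2.1, fun hw => hn.2.2.2 ?_⟩
      intro h4 y₁ y₂ h1 h2 h3
      refine hw y₁ y₂ h1 h2 (le_trans ?_ h3)
      have hn3 : (3 : ℝ) ≤ n := by exact_mod_cast h4
      have hlogn : 1 ≤ Real.log n := by
        rw [Real.le_log_iff_exp_le (by linarith)]
        have := Real.exp_one_lt_d9
        linarith
      apply div_le_div_of_nonneg_left (by positivity) (by positivity)
      exact pow_le_pow_right₀ hlogn (le_max_right _ _)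
    exact_mod_cast this
  · have : Real.log N ^ A ≤ Real.log N ^ (max A W) := pow_le_pow_right₀ hlog (le_max_left _ _)
    gcongr

end Pool.Agent.N860.GL
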