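import Pool.Agent.N860.GL.Rnd
import Pool.Agent.N918.MS.Seq

/-!
# Metric form: the values of functions with a large logarithmic derivative
-/

set_option autoImplicit false

namespace Pool.Agent.N860.GL

open Finset MeasureTheory Filter
open scoped ENNReal Topology

lemma sub_one_ge {r : ℝ} (hr1 : r < 1) : ∃ x₀ : ℝ, 1 ≤ x₀ ∧ ∀ x : ℝ, x₀ ≤ x → x ^ r ≤ x - 1 := by
  obtain ⟨x₀, hx₀⟩ := eventually_atTop.1 ((tendsto_rpow_atTop (by linarith : 0 < 1 - r)).eventually_ge_atTop 2)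
  refine ⟨max x₀ 2, le_trans (by norm_num) (le_max_right _ _), fun x hx => ?_⟩
  have hx2 : 2 ≤ x := (le_max_right _ _).trans hx
  have h3 := hx₀ x ((le_max_left _ _).trans hx)
  have h4 : x ^ r * x ^ (1 - r) = x := by
    rw [← Real.rpow_add (by linarith)]
    norm_num
  have h5 : 0 < x ^ r := Real.rpow_pos_of_pos (by linarith) r
  nlinarith

/-- **Steep functions.** -/
theorem metric_classes {θ κ δ c I J : ℝ} {P : ℕ → Prop} (hP : ClassBound θ P) (hθ1 : θ < 1) (hθ0 : 0 < θ)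
    (hκθ : 1 - θ < κ * θ) (hκ : 0 < κ) (hδ : 0 < δ) (hc : 0 < c) (W T : ℕ) {q : ℕ → ℕ} {A : ℕ → Finset ℕ}
    (hA : Classes q A) (h : ℕ → ℝ → ℝ)
    (hh : ∀ᶠ n : ℕ in atTop, ∀ x ∈ Set.Icc I J, DifferentiableAt ℝ (h n) x ∧ c * |h n x| ≤ |deriv (h n) x| ∧
      Real.exp ((n : ℝ) ^ δ) ≤ h n x ∧ (q n : ℝ) ^ κ ≤ h n x) :
    ∀ᵐ x : ℝ, x ∈ Set.Icc I J → ∀ᶠ n in atTop, ∀ a ∈ A n, ¬ BadNear P W T (q n) (q n * ⌊h n x⌋₊ + a) := by
  classical
  obtain ⟨n₀, hn₀⟩ := eventually_atTop.1 hh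
  -- the smaller exponent
  obtain ⟨κ', hκ'⟩ : ∃ κ' : ℝ, κ' = (κ + (1 - θ) / θ) / 2 := ⟨_, rfl⟩
  have h1θ : (1 - θ) / θ < κ := by
    rw [div_lt_iff₀ hθ0]
    exact hκθ
  have h0θ : 0 < (1 - θ) / θ := div_pos (by linarith) hθ0
  have hκ'κ : κ' < κ := by rw [hκ']; linarith
  have hκ'0 : 0 < κ' := by rw [hκ']; linarith
  have hκ'θ : 1 - θ < κ' * θ := by
    have : (1 - θ) / θ < κ' := by rw [hκ']; linarith
    rwa [div_lt_iff₀ hθ0] at this
  obtain ⟨x₁, hx₁1, hx₁⟩ := sub_one_ge (r := κ' / κ) (by rw [div_lt_one hκ]; exact hκ'κ)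
  obtain ⟨x₂, hx₂1, hx₂⟩ := sub_one_ge (r := 1 / 2) (by norm_num)
  -- a late start
  have ht2 : Tendsto (fun n : ℕ => Real.exp ((n : ℝ) ^ δ)) atTop atTop :=
    Real.tendsto_exp_atTop.comp ((tendsto_rpow_atTop hδ).comp tendsto_natCast_atTop_atTop)
  have ht3 : Tendsto (fun n : ℕ => (n : ℝ) ^ (δ / 2)) atTop atTop :=
    (tendsto_rpow_atTop (half_pos hδ)).comp tendsto_natCast_atTop_atTop
  obtain ⟨n₁, hn₁⟩ := eventually_atTop.1 (ht2.eventually_ge_atTop (max x₁ x₂))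
  obtain ⟨n₂, hn₂⟩ := eventually_atTop.1 (ht3.eventually_ge_atTop 2)
  obtain ⟨m₀, hm₀⟩ : ∃ m₀ : ℕ, m₀ = n₀ + n₁ + n₂ := ⟨_, rfl⟩
  have key : ∀ n : ℕ, m₀ ≤ n → ∀ x ∈ Set.Icc I J, 1 ≤ h n x ∧ Real.exp ((n : ℝ) ^ (δ / 2)) ≤ (⌊h n x⌋₊ : ℝ) ∧
      (q n : ℝ) ^ κ' ≤ (⌊h n x⌋₊ : ℝ) := by
    intro n hn x hx
    obtain ⟨-, -, h3, h4⟩ := hn₀ n (by omega) x hx
    have h5 := hn₁ n (by omega)
    have h6 := hn₂ n (by omega)
    have h7 : x₁ ≤ h n x := (le_max_left _ _).trans (h5.trans h3)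
    have h8 : x₂ ≤ h n x := (le_max_right _ _).trans (h5.trans h3)
    have h9 : h n x - 1 ≤ (⌊h n x⌋₊ : ℝ) := (Nat.sub_one_lt_floor _).le
    have h10 : 1 ≤ h n x := hx₁1.trans h7
    refine ⟨h10, ?_, ?_⟩
    · refine le_trans ?_ ((hx₂ _ h8).trans h9)
      have h11 : Real.exp ((n : ℝ) ^ δ) ^ (1 / 2 : ℝ) ≤ h n x ^ (1 / 2 : ℝ) :=
        Real.rpow_le_rpow (Real.exp_pos _).le h3 (by norm_num)
      refine le_trans ?_ h11
      rw [← Real.exp_mul]
      apply Real.exp_le_exp.2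
      have h12 : (n : ℝ) ^ δ = (n : ℝ) ^ (δ / 2) * (n : ℝ) ^ (δ / 2) := by
        rw [← Real.rpow_add_of_nonneg (Nat.cast_nonneg _) (half_pos hδ).le (half_pos hδ).le]
        ring_nf
      rw [h12]
      nlinarith
    · refine le_trans ?_ ((hx₁ _ h7).trans h9)
      have h11 : ((q n : ℝ) ^ κ) ^ (κ' / κ) ≤ h n x ^ (κ' / κ) :=
        Real.rpow_le_rpow (by positivity) h4 (by positivity)
      refine le_trans (le_of_eq ?_) h11
      rw [← Real.rpow_mul (Nat.cast_nonneg _)]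
      congr 1
      field_simp
  have hmain : ∀ᵐ x ∂(volume.restrict (Set.Icc I J)), ∀ᶠ n in atTop, ∀ a ∈ A (n + m₀),
      ¬ BadNear P W T (q (n + m₀)) (q (n + m₀) * ⌊h (n + m₀) x⌋₊ + a) := by
    have hA' : Classes (fun n => q (n + m₀)) (fun n => A (n + m₀)) := by
      refine ⟨fun n => hA.pos _, fun n => hA.lt _, ?_⟩
      obtain ⟨K, hK⟩ := hA.card
      refine ⟨K + (m₀ + 1) ^ K + 1 + K * 1 + ((m₀ + 1) ^ (K + 1)), fun n => (hK (n + m₀)).trans ?_⟩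
      rcases Nat.lt_or_ge n 2 with hn | hn
      · have h1 : (n + m₀) ^ K ≤ (m₀ + 1) ^ K := Nat.pow_le_pow_left (by omega) K
        omega
      · -- `n + m₀ ≤ n * (m₀ + 1)`
        have h1 : n + m₀ ≤ n * (m₀ + 1) := by nlinarith
        have h2 : (n + m₀) ^ K ≤ n ^ K * (m₀ + 1) ^ K := by
          rw [← mul_pow]
          exact Nat.pow_le_pow_left h1 K
        have h3 : (m₀ + 1) ^ K ≤ n ^ ((m₀ + 1) ^ K) := by
          calc (m₀ + 1) ^ K ≤ 2 ^ ((m₀ + 1) ^ K) := Nat.lt_two_pow_self.le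
            _ ≤ n ^ ((m₀ + 1) ^ K) := Nat.pow_le_pow_left hn _
        have h4 : n ^ K * (m₀ + 1) ^ K ≤ n ^ (K + (m₀ + 1) ^ K) := by
          rw [pow_add]
          exact Nat.mul_le_mul_left _ h3
        have h5 : n ^ (K + (m₀ + 1) ^ K) ≤ n ^ (K + (m₀ + 1) ^ K + 1 + K * 1 + ((m₀ + 1) ^ (K + 1))) :=
          Nat.pow_le_pow_right (by omega) (by omega)
        omega
    refine random_classes (C := 3 / c) hP hθ1 hκ'θ hκ'0 (half_pos hδ) W T hA' (volume.restrict (Set.Icc I J))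
      (fun n x => ⌊h (n + m₀) x⌋₊) (fun n y => ?_) ?_ ?_
    · have h1 := Pool.Agent.N918.MS.steep_density (h := h (n + m₀)) (A := I) (B := J) hc (fun x hx => ?_) (y : ℤ)
      · refine le_trans ?_ (h1.trans (le_of_eq ?_))
        · rw [Measure.restrict_apply' measurableSet_Icc, Measure.restrict_apply' measurableSet_Icc]
          refine measure_mono ?_
          rintro x ⟨hx1, hx2⟩
          refine ⟨?_, hx2⟩
          have h2 : ⌊h (n + m₀) x⌋₊ = y := hx1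
          have h3 : (0 : ℝ) ≤ h (n + m₀) x := by linarith [(key (n + m₀) (by omega) x hx2).1]
          change ⌊h (n + m₀) x⌋ = (y : ℤ)
          rw [← h2, Int.natCast_floor_eq_floor h3]
        · push_cast
          rw [abs_of_nonneg (Nat.cast_nonneg y)]
      · obtain ⟨h3, h4, -, -⟩ := hn₀ (n + m₀) (by omega) x hx
        have h5 := (key (n + m₀) (by omega) x hx).1
        exact ⟨h3, h4, by rwa [abs_of_nonneg (by linarith)]⟩
    · have hz : ∀ n : ℕ, (volume.restrict (Set.Icc I J))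
          {x : ℝ | (⌊h (n + m₀) x⌋₊ : ℝ) < Real.exp ((n : ℝ) ^ (δ / 2))} = 0 := by
        intro n
        rw [Measure.restrict_apply' measurableSet_Icc]
        have : {x : ℝ | (⌊h (n + m₀) x⌋₊ : ℝ) < Real.exp ((n : ℝ) ^ (δ / 2))} ∩ Set.Icc I J = ∅ := by
          rw [Set.eq_empty_iff_forall_notMem]
          rintro x ⟨hx1, hx2⟩
          have h3 := (key (n + m₀) (by omega) x hx2).2.1
          have h4 : Real.exp ((n : ℝ) ^ (δ / 2)) ≤ Real.exp (((n + m₀ : ℕ) : ℝ) ^ (δ / 2)) := by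
            apply Real.exp_le_exp.2
            apply Real.rpow_le_rpow (Nat.cast_nonneg _) _ (half_pos hδ).le
            exact_mod_cast Nat.le_add_right n m₀
          have h5 : (⌊h (n + m₀) x⌋₊ : ℝ) < Real.exp ((n : ℝ) ^ (δ / 2)) := hx1
          linarith
        rw [this, measure_empty]
      simp only [hz, tsum_zero]
      exact ENNReal.zero_ne_top
    · have hz : ∀ n : ℕ, (volume.restrict (Set.Icc I J))
          {x : ℝ | (⌊h (n + m₀) x⌋₊ : ℝ) < (q (n + m₀) : ℝ) ^ κ'} = 0 := by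
        intro n
        rw [Measure.restrict_apply' measurableSet_Icc]
        have : {x : ℝ | (⌊h (n + m₀) x⌋₊ : ℝ) < (q (n + m₀) : ℝ) ^ κ'} ∩ Set.Icc I J = ∅ := by
          rw [Set.eq_empty_iff_forall_notMem]
          rintro x ⟨hx1, hx2⟩
          have h3 := (key (n + m₀) (by omega) x hx2).2.2
          have h5 : (⌊h (n + m₀) x⌋₊ : ℝ) < (q (n + m₀) : ℝ) ^ κ' := hx1
          linarith
        rw [this, measure_empty]
      simp only [hz, tsum_zero]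
      exact ENNReal.zero_ne_top
  rw [ae_restrict_iff' measurableSet_Icc] at hmain
  filter_upwards [hmain] with x hx hxI
  obtain ⟨N, hN⟩ := eventually_atTop.1 (hx hxI)
  refine eventually_atTop.2 ⟨N + m₀, fun n hn a ha => ?_⟩
  have h1 := hN (n - m₀) (by omega) a
  have h2 : n - m₀ + m₀ = n := Nat.sub_add_cancel (by omega)
  rw [h2] at h1
  exact h1 ha

end Pool.Agent.N860.GL
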