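import Pool.Agent.N860.GL.Tail

/-!
# Borel–Cantelli for random members of residue classes
-/

set_option autoImplicit false

namespace Pool.Agent.N860.GL

open Finset MeasureTheory Filter
open scoped ENNReal Topology

/-- sets `A n` of at most `n ^ K + K` residues modulo `q n` -/
structure Classes (q : ℕ → ℕ) (A : ℕ → Finset ℕ) : Prop where
  pos : ∀ n, 1 ≤ q n
  lt : ∀ n, ∀ a ∈ A n, a < q n
  card : ∃ K : ℕ, ∀ n, #(A n) ≤ n ^ K + K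

/-- **Random members of residue classes.** -/
theorem random_classes {θ κ δ C : ℝ} {P : ℕ → Prop} (hP : ClassBound θ P) (hθ1 : θ < 1) (hκθ : 1 - θ < κ * θ)
    (hκ : 0 < κ) (hδ : 0 < δ) (W T : ℕ) {q : ℕ → ℕ} {A : ℕ → Finset ℕ} (hA : Classes q A) {Ω : Type}
    [MeasurableSpace Ω] (μ : Measure Ω) (Y : ℕ → Ω → ℕ)
    (hY : ∀ n (y : ℕ), μ {ω | Y n ω = y} ≤ ENNReal.ofReal (C / ((y : ℝ) + 1)))
    (hs : ∑' n : ℕ, μ {ω | (Y n ω : ℝ) < Real.exp ((n : ℝ) ^ δ)} ≠ ∞)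
    (hq : ∑' n : ℕ, μ {ω | (Y n ω : ℝ) < (q n : ℝ) ^ κ} ≠ ∞) :
    ∀ᵐ ω ∂μ, ∀ᶠ n in atTop, ∀ a ∈ A n, ¬ BadNear P W T (q n) (q n * Y n ω + a) := by
  classical
  obtain ⟨H, hH⟩ := hA.card
  obtain ⟨V, hV⟩ : ∃ V : ℕ, V = ⌈((H : ℝ) + 2) / δ⌉₊ := ⟨_, rfl⟩
  have hVδ : (H : ℝ) + 2 ≤ δ * V := by
    have : ((H : ℝ) + 2) / δ ≤ V := by rw [hV]; exact Nat.le_ceil _
    rw [div_le_iff₀ hδ] at this
    linarith
  obtain ⟨K, i₀, hK0, hK⟩ := tail hP hθ1 hκθ hκ V W T C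
  have ht : Tendsto (fun n : ℕ => (n : ℝ) ^ δ) atTop atTop :=
    (tendsto_rpow_atTop hδ).comp tendsto_natCast_atTop_atTop
  obtain ⟨n₀, hn₀⟩ := eventually_atTop.1 (ht.eventually_ge_atTop ((i₀ : ℝ)))
  obtain ⟨n₁, hn₁⟩ : ∃ n₁ : ℕ, n₁ = n₀ + 1 := ⟨_, rfl⟩
  have hb : ∀ n : ℕ, μ {ω | ∃ a ∈ A (n + n₁), BadNear P W T (q (n + n₁)) (q (n + n₁) * Y (n + n₁) ω + a)} ≤
      μ {ω | (Y (n + n₁) ω : ℝ) < Real.exp (((n + n₁ : ℕ) : ℝ) ^ δ)} +
      μ {ω | (Y (n + n₁) ω : ℝ) < (q (n + n₁) : ℝ) ^ κ} +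
      ENNReal.ofReal (K * (H + 1) * (1 / ((n : ℝ) + 1) ^ 2)) := by
    intro n
    obtain ⟨m, hm⟩ : ∃ m, m = n + n₁ := ⟨_, rfl⟩
    rw [← hm]
    have hm1 : 1 ≤ m := by omega
    have hm1r : (1 : ℝ) ≤ m := by exact_mod_cast hm1
    obtain ⟨j, hj⟩ : ∃ j : ℕ, j = ⌊(m : ℝ) ^ δ⌋₊ := ⟨_, rfl⟩
    have hm0 : (0 : ℝ) ≤ (m : ℝ) ^ δ := by positivity
    have hij : i₀ ≤ j := by
      rw [hj]
      exact Nat.le_floor (hn₀ m (by omega))
    have h2 : (2 : ℝ) ^ j ≤ Real.exp ((m : ℝ) ^ δ) := by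
      calc (2 : ℝ) ^ j ≤ Real.exp 1 ^ j := by
            gcongr
            have := Real.exp_one_gt_d9
            linarith
        _ = Real.exp j := by rw [← Real.exp_nat_mul, mul_one]
        _ ≤ _ := Real.exp_le_exp.2 (by rw [hj]; exact Nat.floor_le hm0)
    have hsub : {ω | ∃ a ∈ A m, BadNear P W T (q m) (q m * Y m ω + a)} ⊆
        ({ω | (Y m ω : ℝ) < Real.exp ((m : ℝ) ^ δ)} ∪ {ω | (Y m ω : ℝ) < (q m : ℝ) ^ κ}) ∪
        ⋃ a ∈ A m, {ω | (2 : ℝ) ^ j ≤ (Y m ω : ℝ) ∧ (q m : ℝ) ^ κ ≤ Y m ω ∧ BadNear P W T (q m) (q m * Y m ω + a)} := by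
      rintro ω ⟨a, ha, hω⟩
      by_cases h3 : (Y m ω : ℝ) < Real.exp ((m : ℝ) ^ δ)
      · exact Or.inl (Or.inl h3)
      · by_cases h4 : (Y m ω : ℝ) < (q m : ℝ) ^ κ
        · exact Or.inl (Or.inr h4)
        · exact Or.inr (Set.mem_biUnion (mem_coe.2 ha) ⟨h2.trans (not_lt.1 h3), not_lt.1 h4, hω⟩)
    refine (measure_mono hsub).trans ((measure_union_le _ _).trans ?_)
    refine add_le_add (measure_union_le _ _) ((measure_biUnion_finset_le _ _).trans ?_)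
    refine (Finset.sum_le_sum fun a ha => hK μ (Y m) (hY m) j hij (q m) (hA.pos m) a (hA.lt m a ha)).trans ?_
    rw [Finset.sum_const, nsmul_eq_mul, ← ENNReal.ofReal_natCast, ← ENNReal.ofReal_mul (Nat.cast_nonneg _)]
    refine ENNReal.ofReal_le_ofReal ?_
    have h5 : (m : ℝ) ^ δ < j + 1 := by rw [hj]; exact Nat.lt_floor_add_one _
    have h4 : (m : ℝ) ^ (H + 2) ≤ ((j : ℝ) + 1) ^ V := by
      calc (m : ℝ) ^ (H + 2) = (m : ℝ) ^ ((H : ℝ) + 2) := by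
            rw [← Real.rpow_natCast]; push_cast; rfl
        _ ≤ (m : ℝ) ^ (δ * V) := Real.rpow_le_rpow_of_exponent_le hm1r hVδ
        _ = ((m : ℝ) ^ δ) ^ V := by rw [Real.rpow_mul (by positivity), Real.rpow_natCast]
        _ ≤ _ := by gcongr
    have h6 : (#(A m) : ℝ) ≤ (H + 1) * (m : ℝ) ^ H := by
      have h7 : (#(A m) : ℝ) ≤ (m : ℝ) ^ H + H := by exact_mod_cast hH m
      have h8 : (1 : ℝ) ≤ (m : ℝ) ^ H := one_le_pow₀ hm1r
      have h9 : (0 : ℝ) ≤ H := Nat.cast_nonneg _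
      nlinarith
    have hmn : ((n : ℝ) + 1) ≤ m := by
      have : n + 1 ≤ m := by omega
      exact_mod_cast this
    calc (#(A m) : ℝ) * (K / ((j : ℝ) + 1) ^ V) ≤ ((H + 1) * (m : ℝ) ^ H) * (K / (m : ℝ) ^ (H + 2)) := by
          gcongr
      _ = K * (H + 1) * (1 / (m : ℝ) ^ 2) := by
          have : (m : ℝ) ≠ 0 := by linarith
          rw [pow_add]
          field_simp
      _ ≤ _ := by gcongr
  have hsum : ∑' n : ℕ, μ {ω | ∃ a ∈ A (n + n₁), BadNear P W T (q (n + n₁)) (q (n + n₁) * Y (n + n₁) ω + a)} ≠ ∞ := by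
    refine ne_top_of_le_ne_top ?_ (ENNReal.tsum_le_tsum hb)
    rw [ENNReal.tsum_add, ENNReal.tsum_add]
    refine ENNReal.add_ne_top.2 ⟨ENNReal.add_ne_top.2 ⟨?_, ?_⟩, ?_⟩
    · refine ne_top_of_le_ne_top hs ?_
      exact ENNReal.tsum_comp_le_tsum_of_injective (f := fun n : ℕ => n + n₁) (fun a b hab => by simpa using hab)
        (fun n : ℕ => μ {ω | (Y n ω : ℝ) < Real.exp ((n : ℝ) ^ δ)})
    · refine ne_top_of_le_ne_top hq ?_
      exact ENNReal.tsum_comp_le_tsum_of_injective (f := fun n : ℕ => n + n₁) (fun a b hab => by simpa using hab)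
        (fun n : ℕ => μ {ω | (Y n ω : ℝ) < (q n : ℝ) ^ κ})
    · have h1 : Summable fun n : ℕ => K * (H + 1) * (1 / ((n : ℝ) + 1) ^ 2) := by
        have := (summable_nat_add_iff 1).2 (Real.summable_one_div_nat_pow.2 (one_lt_two))
        refine Summable.mul_left _ ?_
        simpa using this
      rw [← ENNReal.ofReal_tsum_of_nonneg (fun n => by positivity) h1]
      exact ENNReal.ofReal_ne_top
  filter_upwards [ae_eventually_notMem hsum] with ω hω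
  obtain ⟨N, hN⟩ := eventually_atTop.1 hω
  refine eventually_atTop.2 ⟨N + n₁, fun n hn a ha hbad => ?_⟩
  have h1 := hN (n - n₁) (by omega)
  apply h1
  have h2 : n - n₁ + n₁ = n := Nat.sub_add_cancel (by omega)
  rw [h2]
  exact ⟨a, ha, hbad⟩

end Pool.Agent.N860.GL
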