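import Pool.Agent.N860.GL.Eng

/-!
# Random members of residue classes avoid bad neighbourhoods
-/

set_option autoImplicit false

namespace Pool.Agent.N860.GL

open Finset MeasureTheory Filter
open scoped ENNReal Topology

/-- the exponents -/
lemma exponents {θ κ : ℝ} (hθ1 : θ < 1) (hκθ : 1 - θ < κ * θ) (hκ : 0 < κ) :
    ∃ ρ : ℝ, 0 < ρ ∧ ∃ j₀ : ℕ, ∀ j : ℕ, j₀ ≤ j → ∀ q : ℕ, 1 ≤ q → (q : ℝ) ^ κ ≤ 2 ^ (j + 1) →
      (q : ℝ) ≤ ((q * 2 ^ j : ℕ) : ℝ) ^ (θ - ρ) := by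
  obtain ⟨ρ, hρ⟩ : ∃ ρ : ℝ, ρ = (κ * θ - (1 - θ)) / (2 * (1 + κ)) := ⟨_, rfl⟩
  have hρ0 : 0 < ρ := by
    rw [hρ]
    have : 0 < κ * θ - (1 - θ) := by linarith
    positivity
  have hgap : κ * (θ - ρ) - (1 - θ + ρ) = (κ * θ - (1 - θ)) / 2 := by
    rw [hρ]
    field_simp
    ring
  have hθρ : 0 < θ - ρ := by
    by_contra h
    push Not at h
    have h1 : κ * (θ - ρ) ≤ 0 := mul_nonpos_of_nonneg_of_nonpos hκ.le h
    linarith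
  obtain ⟨g, hg⟩ : ∃ g : ℝ, g = (κ * θ - (1 - θ)) / 2 := ⟨_, rfl⟩
  have hg0 : 0 < g := by rw [hg]; linarith
  refine ⟨ρ, hρ0, ⌈(1 - θ + ρ) / g⌉₊ + 1, fun j hj q hq hqj => ?_⟩
  have hq1 : (1 : ℝ) ≤ q := by exact_mod_cast hq
  have hq0 : (0 : ℝ) < q := by linarith
  have hj1 : (1 - θ + ρ) / g ≤ j := by
    have h1 : (1 - θ + ρ) / g ≤ ⌈(1 - θ + ρ) / g⌉₊ := Nat.le_ceil _
    have h2 : ((⌈(1 - θ + ρ) / g⌉₊ + 1 : ℕ) : ℝ) ≤ j := by exact_mod_cast hj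
    push_cast at h2
    linarith
  rw [div_le_iff₀ hg0] at hj1
  have hs : 0 < 1 - θ + ρ := by linarith
  -- `q ^ (1 - θ + ρ) ≤ 2 ^ (j (θ - ρ))`
  have h1 : (q : ℝ) ≤ 2 ^ (((j : ℝ) + 1) / κ) := by
    have h2 : ((q : ℝ) ^ κ) ^ (1 / κ) ≤ ((2 : ℝ) ^ (j + 1)) ^ (1 / κ) :=
      Real.rpow_le_rpow (by positivity) hqj (by positivity)
    rw [← Real.rpow_mul hq0.le, mul_one_div_cancel hκ.ne', Real.rpow_one, ← Real.rpow_natCast,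
      ← Real.rpow_mul (by norm_num)] at h2
    refine h2.trans (le_of_eq ?_)
    congr 1
    push_cast
    ring
  have h3 : (q : ℝ) ^ (1 - θ + ρ) ≤ (2 : ℝ) ^ ((j : ℝ) * (θ - ρ)) := by
    calc (q : ℝ) ^ (1 - θ + ρ) ≤ ((2 : ℝ) ^ (((j : ℝ) + 1) / κ)) ^ (1 - θ + ρ) :=
          Real.rpow_le_rpow hq0.le h1 hs.le
      _ = (2 : ℝ) ^ (((j : ℝ) + 1) / κ * (1 - θ + ρ)) := by rw [← Real.rpow_mul (by norm_num)]
      _ ≤ _ := by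
          apply Real.rpow_le_rpow_of_exponent_le (by norm_num)
          rw [div_mul_eq_mul_div, div_le_iff₀ hκ]
          have h4 : κ * (θ - ρ) = g + (1 - θ + ρ) := by rw [hg]; linarith
          nlinarith
  have h5 : ((q * 2 ^ j : ℕ) : ℝ) ^ (θ - ρ) = (q : ℝ) ^ (θ - ρ) * (2 : ℝ) ^ ((j : ℝ) * (θ - ρ)) := by
    push_cast
    rw [Real.mul_rpow hq0.le (by positivity), ← Real.rpow_natCast 2 j, ← Real.rpow_mul (by norm_num)]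
  rw [h5]
  calc (q : ℝ) = (q : ℝ) ^ (θ - ρ) * (q : ℝ) ^ (1 - θ + ρ) := by
        rw [← Real.rpow_add hq0]
        norm_num
    _ ≤ _ := by gcongr

/-- **shells** -/
theorem shell {θ κ : ℝ} {P : ℕ → Prop} (hP : ClassBound θ P) (hθ1 : θ < 1) (hκθ : 1 - θ < κ * θ) (hκ : 0 < κ)
    (A W T : ℕ) : ∃ j₀ : ℕ, ∀ j : ℕ, j₀ ≤ j → ∀ q : ℕ, 1 ≤ q → (q : ℝ) ^ κ ≤ 2 ^ (j + 1) → ∀ a : ℕ, a < q →
      ({y : ℕ | 2 ^ j ≤ y ∧ y < 2 ^ (j + 1) ∧ BadNear P W T q (q * y + a)}.ncard : ℝ) ≤ 2 ^ j / ((j : ℝ) + 1) ^ A := by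
  classical
  obtain ⟨ρ, hρ, j₁, hj₁⟩ := exponents hθ1 hκθ hκ
  obtain ⟨N₀, hN₀⟩ := near_bound hP hρ (A + 1) W T
  refine ⟨j₁ + N₀ + 2 * 4 ^ A * 2 + 2, fun j hj q hq hqj a ha => ?_⟩
  have hq0 : (0 : ℝ) < q := by exact_mod_cast hq
  have h4A : 1 ≤ 4 ^ A := Nat.one_le_pow _ _ (by norm_num)
  have hj2 : N₀ ≤ q * 2 ^ j := by
    calc N₀ ≤ j := by omega
      _ ≤ 2 ^ j := Nat.lt_two_pow_self.le
      _ ≤ q * 2 ^ j := Nat.le_mul_of_pos_left _ hq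
  have h1 := hN₀ (q * 2 ^ j) hj2 q hq (hj₁ j (by omega) q hq hqj) a
  set S : Set ℕ := {y : ℕ | 2 ^ j ≤ y ∧ y < 2 ^ (j + 1) ∧ BadNear P W T q (q * y + a)} with hS
  set S' : Set ℕ := {k : ℕ | q * 2 ^ j ≤ k ∧ k < 2 * (q * 2 ^ j) ∧ k % q = a % q ∧ BadNear P W T q k} with hS'
  have hS'fin : S'.Finite := (Set.finite_Icc (q * 2 ^ j) (2 * (q * 2 ^ j))).subset fun k hk => ⟨hk.1, hk.2.1.le⟩
  have h2 : S.ncard ≤ S'.ncard := by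
    apply Set.ncard_le_ncard_of_injOn (fun y => q * y + a) _ _ hS'fin
    · rintro y ⟨hy1, hy2, hy3⟩
      refine ⟨?_, ?_, ?_, hy3⟩
      · calc q * 2 ^ j ≤ q * y := Nat.mul_le_mul_left _ hy1
          _ ≤ q * y + a := Nat.le_add_right _ _
      · calc q * y + a < q * y + q := by omega
          _ = q * (y + 1) := by ring
          _ ≤ q * 2 ^ (j + 1) := Nat.mul_le_mul_left _ hy2
          _ = 2 * (q * 2 ^ j) := by rw [pow_succ]; ring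
      · simp [Nat.mul_add_mod]
    · intro y _ y' _ h
      simp only at h
      have h3 : q * y = q * y' := by omega
      exact Nat.eq_of_mul_eq_mul_left hq h3
  have h3 : (S.ncard : ℝ) ≤ S'.ncard := by exact_mod_cast h2
  refine h3.trans (h1.trans ?_)
  -- the logarithm
  have hjr : (2 * 4 ^ A * 2 + 2 : ℝ) ≤ j := by
    have : 2 * 4 ^ A * 2 + 2 ≤ j := by omega
    exact_mod_cast this
  have h4Ar : (1 : ℝ) ≤ 4 ^ A := one_le_pow₀ (by norm_num)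
  have hlog : (j : ℝ) / 2 ≤ Real.log ((q * 2 ^ j : ℕ) : ℝ) := by
    have h5 : Real.log (2 ^ j) ≤ Real.log ((q * 2 ^ j : ℕ) : ℝ) := by
      apply Real.log_le_log (by positivity)
      push_cast
      have h6 : (1 : ℝ) ≤ q := by exact_mod_cast hq
      nlinarith [show (0 : ℝ) < 2 ^ j by positivity]
    rw [Real.log_pow] at h5
    have h6 := Real.log_two_gt_d9
    nlinarith
  have h7 : ((j : ℝ) + 1) ^ A ≤ Real.log ((q * 2 ^ j : ℕ) : ℝ) ^ (A + 1) := by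
    calc ((j : ℝ) + 1) ^ A ≤ (4 * ((j : ℝ) / 2)) ^ A := by
          apply pow_le_pow_left₀ (by positivity)
          linarith
      _ = 4 ^ A * ((j : ℝ) / 2) ^ A := by rw [mul_pow]
      _ ≤ ((j : ℝ) / 2) * ((j : ℝ) / 2) ^ A := by
          gcongr
          linarith
      _ = ((j : ℝ) / 2) ^ (A + 1) := by rw [pow_succ]; ring
      _ ≤ _ := by gcongr
  have h8 : (0 : ℝ) < ((j : ℝ) + 1) ^ A := by positivity
  calc (((q * 2 ^ j : ℕ) : ℝ)) / (q * Real.log ((q * 2 ^ j : ℕ) : ℝ) ^ (A + 1))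
      = 2 ^ j / Real.log ((q * 2 ^ j : ℕ) : ℝ) ^ (A + 1) := by
        push_cast
        field_simp
    _ ≤ 2 ^ j / ((j : ℝ) + 1) ^ A := by gcongr

/-- **tails** -/
theorem tail {θ κ : ℝ} {P : ℕ → Prop} (hP : ClassBound θ P) (hθ1 : θ < 1) (hκθ : 1 - θ < κ * θ) (hκ : 0 < κ)
    (V W T : ℕ) (C : ℝ) : ∃ (K : ℝ) (i₀ : ℕ), 0 ≤ K ∧ ∀ {Ω : Type} [MeasurableSpace Ω] (μ : Measure Ω) (Y : Ω → ℕ),
    (∀ y : ℕ, μ {ω | Y ω = y} ≤ ENNReal.ofReal (C / ((y : ℝ) + 1))) → ∀ j₀ : ℕ, i₀ ≤ j₀ → ∀ q : ℕ, 1 ≤ q →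
    ∀ a : ℕ, a < q →
      μ {ω | (2 : ℝ) ^ j₀ ≤ (Y ω : ℝ) ∧ (q : ℝ) ^ κ ≤ Y ω ∧ BadNear P W T q (q * Y ω + a)} ≤
        ENNReal.ofReal (K / (j₀ + 1) ^ V) := by
  classical
  obtain ⟨i₀, hi₀⟩ := shell hP hθ1 hκθ hκ (V + 2) W T
  have hsum : Summable fun j : ℕ => 1 / ((j : ℝ) + 1) ^ 2 := by
    have := (summable_nat_add_iff 1).2 (Real.summable_one_div_nat_pow.2 (one_lt_two))
    simpa using this
  refine ⟨|C| * ∑' j : ℕ, 1 / ((j : ℝ) + 1) ^ 2, i₀, ?_, ?_⟩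
  · have : 0 ≤ ∑' j : ℕ, 1 / ((j : ℝ) + 1) ^ 2 := tsum_nonneg fun j => by positivity
    positivity
  intro Ω _ μ Y hY j₀ hj₀ q hq a ha
  have hshell : ∀ j : ℕ, j₀ ≤ j → μ {ω | ((2 : ℝ) ^ j ≤ (Y ω : ℝ) ∧ (Y ω : ℝ) < 2 ^ (j + 1)) ∧ (q : ℝ) ^ κ ≤ Y ω ∧
      BadNear P W T q (q * Y ω + a)} ≤ ENNReal.ofReal (|C| / (j + 1) ^ (V + 2)) := by
    intro j hj
    by_cases hqj : (q : ℝ) ^ κ ≤ 2 ^ (j + 1)
    · have h1 := hi₀ j (by omega) q hq hqj a ha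
      set S : Set ℕ := {y : ℕ | 2 ^ j ≤ y ∧ y < 2 ^ (j + 1) ∧ BadNear P W T q (q * y + a)} with hS
      have hSf : S.Finite := (Set.finite_Icc (2 ^ j) (2 ^ (j + 1))).subset fun k hk => ⟨hk.1, hk.2.1.le⟩
      have hsub : {ω | ((2 : ℝ) ^ j ≤ (Y ω : ℝ) ∧ (Y ω : ℝ) < 2 ^ (j + 1)) ∧ (q : ℝ) ^ κ ≤ Y ω ∧
          BadNear P W T q (q * Y ω + a)} ⊆ ⋃ y ∈ hSf.toFinset, {ω | Y ω = y} := by
        rintro ω ⟨⟨h2, h3⟩, _, h4⟩
        simp only [Set.mem_iUnion, exists_prop]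
        refine ⟨Y ω, ?_, rfl⟩
        rw [Set.Finite.mem_toFinset]
        exact ⟨by exact_mod_cast h2, by exact_mod_cast h3, h4⟩
      refine (measure_mono hsub).trans ((measure_biUnion_finset_le _ _).trans ?_)
      have h5 : ∀ y ∈ hSf.toFinset, μ {ω | Y ω = y} ≤ ENNReal.ofReal (|C| / 2 ^ j) := by
        intro y hy
        rw [Set.Finite.mem_toFinset] at hy
        refine (hY y).trans (ENNReal.ofReal_le_ofReal ?_)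
        have h2 : (2 : ℝ) ^ j ≤ (y : ℝ) := by exact_mod_cast hy.1
        have h3 : (0 : ℝ) < 2 ^ j := by positivity
        calc C / ((y : ℝ) + 1) ≤ |C| / ((y : ℝ) + 1) := by
              gcongr
              exact le_abs_self C
          _ ≤ |C| / 2 ^ j := by
              gcongr
              linarith
      refine (Finset.sum_le_sum h5).trans ?_
      rw [Finset.sum_const, nsmul_eq_mul, ← ENNReal.ofReal_natCast, ← ENNReal.ofReal_mul (Nat.cast_nonneg _)]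
      refine ENNReal.ofReal_le_ofReal ?_
      rw [← Set.ncard_eq_toFinset_card S hSf]
      calc (S.ncard : ℝ) * (|C| / 2 ^ j) ≤ 2 ^ j / ((j : ℝ) + 1) ^ (V + 2) * (|C| / 2 ^ j) := by gcongr
        _ = |C| / (j + 1) ^ (V + 2) := by field_simp
    · have hemp : {ω | ((2 : ℝ) ^ j ≤ (Y ω : ℝ) ∧ (Y ω : ℝ) < 2 ^ (j + 1)) ∧ (q : ℝ) ^ κ ≤ Y ω ∧
          BadNear P W T q (q * Y ω + a)} = ∅ := by
        rw [Set.eq_empty_iff_forall_notMem]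
        rintro ω ⟨⟨_, h3⟩, h4, _⟩
        push Not at hqj
        linarith
      rw [hemp, measure_empty]
      exact bot_le
  have hcov : {ω | (2 : ℝ) ^ j₀ ≤ (Y ω : ℝ) ∧ (q : ℝ) ^ κ ≤ Y ω ∧ BadNear P W T q (q * Y ω + a)} ⊆ ⋃ i : ℕ,
      {ω | ((2 : ℝ) ^ (j₀ + i) ≤ (Y ω : ℝ) ∧ (Y ω : ℝ) < 2 ^ (j₀ + i + 1)) ∧ (q : ℝ) ^ κ ≤ Y ω ∧
        BadNear P W T q (q * Y ω + a)} := by
    rintro ω ⟨h1, h2, h2'⟩
    have h3 : (1 : ℝ) ≤ (Y ω : ℝ) := le_trans (one_le_pow₀ one_le_two) h1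
    obtain ⟨m, hm1, hm2⟩ := exists_nat_pow_near h3 one_lt_two
    have hm : j₀ ≤ m := by
      by_contra hlt
      push Not at hlt
      have : (2 : ℝ) ^ (m + 1) ≤ 2 ^ j₀ := pow_le_pow_right₀ one_le_two hlt
      linarith
    refine Set.mem_iUnion.2 ⟨m - j₀, ⟨?_, ?_⟩, h2, h2'⟩ <;> rw [Nat.add_sub_cancel' hm] <;> assumption
  refine (measure_mono hcov).trans ((measure_iUnion_le _).trans ?_)
  have hterm : ∀ i : ℕ, |C| / (((j₀ + i : ℕ) : ℝ) + 1) ^ (V + 2) ≤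
      |C| / (j₀ + 1) ^ V * (1 / ((i : ℝ) + 1) ^ 2) := by
    intro i
    rw [div_mul_div_comm, mul_one, pow_add]
    have h1 : ((j₀ : ℝ) + 1) ^ V ≤ (((j₀ + i : ℕ) : ℝ) + 1) ^ V := by
      push_cast
      gcongr
      linarith [(Nat.cast_nonneg i : (0 : ℝ) ≤ i)]
    have h2 : ((i : ℝ) + 1) ^ 2 ≤ (((j₀ + i : ℕ) : ℝ) + 1) ^ 2 := by
      push_cast
      gcongr
      linarith [(Nat.cast_nonneg j₀ : (0 : ℝ) ≤ j₀)]
    gcongr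
  have hsum2 : Summable fun i : ℕ => |C| / (j₀ + 1) ^ V * (1 / ((i : ℝ) + 1) ^ 2) := hsum.mul_left _
  calc ∑' i : ℕ, μ {ω | ((2 : ℝ) ^ (j₀ + i) ≤ (Y ω : ℝ) ∧ (Y ω : ℝ) < 2 ^ (j₀ + i + 1)) ∧ (q : ℝ) ^ κ ≤ Y ω ∧
        BadNear P W T q (q * Y ω + a)}
      ≤ ∑' i : ℕ, ENNReal.ofReal (|C| / (j₀ + 1) ^ V * (1 / ((i : ℝ) + 1) ^ 2)) := by
        refine ENNReal.tsum_le_tsum fun i => (hshell (j₀ + i) (by omega)).trans (ENNReal.ofReal_le_ofReal ?_)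
        exact_mod_cast hterm i
    _ = ENNReal.ofReal (∑' i : ℕ, |C| / (j₀ + 1) ^ V * (1 / ((i : ℝ) + 1) ^ 2)) :=
        (ENNReal.ofReal_tsum_of_nonneg (fun i => by positivity) hsum2).symm
    _ = ENNReal.ofReal (|C| * (∑' j : ℕ, 1 / ((j : ℝ) + 1) ^ 2) / (j₀ + 1) ^ V) := by
        rw [tsum_mul_left]
        congr 1
        ring

end Pool.Agent.N860.GL
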